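import Pool.Agent.V11218.LC1

set_option autoImplicit false

/-! The compactification defined by a good algebra of continuous functions. -/

namespace Pool.Agent.J6H78.PS

open Set Filter Topology Pool.Agent.V11218.LC

variable {X : Type} [TopologicalSpace X]

/-- the members of the algebra with values in the unit interval -/
abbrev Idx (A : Subalgebra ℝ C(X, ℝ)) : Type := {a : C(X, ℝ) // a ∈ A ∧ ∀ z, a z ∈ Icc (0 : ℝ) 1}

/-- Good algebras. -/
structure Good (A : Subalgebra ℝ C(X, ℝ)) : Prop where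
  comp : ∀ (g : C(X, ℝ)) (S : ℕ → C(X, ℝ)), (∀ n, S n ∈ A) →
    (∀ z w, (∀ n, S n z = S n w) → g z = g w) → g ∈ A
  loc : ∀ g : C(X, ℝ), (∀ z : X, ∃ U ∈ 𝓝 z, ∃ S : ℕ → C(X, ℝ), (∀ n, S n ∈ A) ∧
    ∀ w ∈ U, ∀ w' ∈ U, (∀ n, S n w = S n w') → g w = g w') → g ∈ A
  reg : ∀ (z : X), ∀ U ∈ 𝓝 z, ∃ a : Idx A, a.1 z = 1 ∧ ∀ w, w ∉ U → a.1 w = 0
  det : ∀ y : Idx A → ℝ, (∀ s : Set (Idx A), s.Countable → ∃ z, ∀ a ∈ s, a.1 z = y a) →
    ∃ s : Set (Idx A), s.Countable ∧ ∀ z w, (∀ a ∈ s, a.1 z = y a) → (∀ a ∈ s, a.1 w = y a) →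
      z = w

variable {A : Subalgebra ℝ C(X, ℝ)}

/-- The evaluation map. -/
def E (A : Subalgebra ℝ C(X, ℝ)) (z : X) : Idx A → ℝ := fun a => a.1 z

theorem continuous_E : Continuous (E A) := continuous_pi fun a => a.1.continuous

theorem inducing_E (h : Good A) : IsInducing (E A) := by
  rw [isInducing_iff_nhds]
  intro z
  refine le_antisymm (continuous_E.continuousAt.tendsto.le_comap) ?_
  intro U hU
  obtain ⟨a, ha1, ha2⟩ := h.reg z U hU
  refine ⟨{k | 1 / 2 < k a}, (isOpen_lt continuous_const (continuous_apply a)).mem_nhds ?_,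
    fun w hw => ?_⟩
  · show 1 / 2 < a.1 z
    rw [ha1]; norm_num
  · by_contra hwU
    have h1 : 1 / 2 < a.1 w := hw
    rw [ha2 w hwU] at h1
    norm_num at h1

theorem injective_E [T1Space X] (h : Good A) : Function.Injective (E A) := by
  intro z w hzw
  by_contra hne
  obtain ⟨a, ha1, ha2⟩ := h.reg z {w}ᶜ (isOpen_compl_singleton.mem_nhds hne)
  have h1 := congrFun hzw a
  have h2 : a.1 z = a.1 w := h1
  rw [ha1, ha2 w (by simp)] at h2
  exact one_ne_zero h2

/-- The compactification. -/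
abbrev KK (A : Subalgebra ℝ C(X, ℝ)) : Type := closure (range (E A))

theorem isCompact_KK : IsCompact (closure (range (E A))) := by
  have h1 : IsCompact (Set.pi univ fun _ : Idx A => Icc (0 : ℝ) 1) :=
    isCompact_univ_pi fun _ => isCompact_Icc
  refine h1.of_isClosed_subset isClosed_closure ?_
  refine h1.isClosed.closure_subset_iff.2 ?_
  rintro _ ⟨z, rfl⟩ a _
  exact a.2.2 z

instance : CompactSpace (KK A) := isCompact_iff_compactSpace.1 isCompact_KK

/-- The embedding. -/
def ee (A : Subalgebra ℝ C(X, ℝ)) (z : X) : KK A := ⟨E A z, subset_closure ⟨z, rfl⟩⟩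

theorem embedding_ee [T1Space X] (h : Good A) : IsEmbedding (ee A) := by
  have h1 : IsEmbedding (E A) := ⟨inducing_E h, injective_E h⟩
  exact IsEmbedding.of_comp (Continuous.subtype_mk continuous_E _) continuous_subtype_val h1

theorem dense_ee : DenseRange (ee A) := by
  intro k
  rw [closure_subtype]
  have h1 : (Subtype.val '' range (ee A)) = range (E A) := by
    rw [← range_comp]
    rfl
  rw [h1]
  exact k.2

/-- Restrictions of continuous functions on `KK` are in the algebra. -/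
theorem comp_mem [T1Space X] (h : Good A) (F : C(KK A, ℝ)) (g : C(X, ℝ))
    (hg : ∀ z, g z = F (ee A z)) : g ∈ A := by
  let ec : C(X, KK A) := ⟨ee A, (embedding_ee h).continuous⟩
  let S : Subalgebra ℝ C(KK A, ℝ) := A.comap (ContinuousMap.compRightAlgHom ℝ ℝ ec)
  have hS : ∀ G : C(KK A, ℝ), G ∈ S ↔ G.comp ec ∈ A := fun G => Iff.rfl
  have hsep : S.SeparatesPoints := by
    intro k l hkl
    have h1 : k.1 ≠ l.1 := fun h => hkl (Subtype.ext h)
    obtain ⟨a, ha⟩ := Function.ne_iff.1 h1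
    refine ⟨fun k => k.1 a, ⟨⟨fun k => k.1 a,
      (continuous_apply a).comp continuous_subtype_val⟩, ?_, rfl⟩, ha⟩
    show _ ∈ S
    rw [hS]
    exact a.2.1
  have htop := ContinuousMap.subalgebra_topologicalClosure_eq_top_of_separatesPoints S hsep
  have hF : F ∈ closure (S : Set C(KK A, ℝ)) := by
    rw [← Subalgebra.topologicalClosure_coe, htop]
    trivial
  obtain ⟨s, hs, hsF⟩ := mem_closure_iff_seq_limit.1 hF
  refine h.comp g (fun n => (s n).comp ec) (fun n => (hS _).1 (hs n)) fun z w hzw => ?_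
  have hz : ∀ z : X, Tendsto (fun n => s n (ee A z)) atTop (𝓝 (g z)) := by
    intro z
    rw [hg]
    exact ((continuous_eval_const (ee A z)).tendsto F).comp hsF
  refine tendsto_nhds_unique (hz z) ?_
  refine (hz w).congr fun n => ?_
  exact (hzw n).symm

/-- Bounded members of the algebra extend over `KK`. -/
theorem extend_mem {g : C(X, ℝ)} (hg : g ∈ A) {M : ℝ} (hM : ∀ z, |g z| ≤ M) :
    ∃ F : C(KK A, ℝ), ∀ z, F (ee A z) = g z := by
  have hM2 : ∀ z, |g z| ≤ |M| + 1 := fun z => by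
    have := hM z
    have := le_abs_self M
    linarith
  let c : ℝ := 1 / (2 * (|M| + 1))
  let g1 : C(X, ℝ) := c • g + algebraMap ℝ C(X, ℝ) (1 / 2)
  have hg1 : g1 ∈ A := add_mem (A.smul_mem hg c) (A.algebraMap_mem _)
  have hval : ∀ z, g1 z = c * g z + 1 / 2 := fun z => rfl
  have hIcc : ∀ z, g1 z ∈ Icc (0 : ℝ) 1 := by
    intro z
    rw [hval]
    have h1 := abs_le.1 (hM2 z)
    have hc : c * (|M| + 1) = 1 / 2 := by
      simp only [c]
      field_simp
    have hc0 : 0 < c := by positivity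
    have h2 : c * (-(|M| + 1)) ≤ c * g z := mul_le_mul_of_nonneg_left h1.1 hc0.le
    have h3 : c * g z ≤ c * (|M| + 1) := mul_le_mul_of_nonneg_left h1.2 hc0.le
    constructor <;> nlinarith
  let a : Idx A := ⟨g1, hg1, hIcc⟩
  refine ⟨⟨fun k => (2 * (|M| + 1)) * (k.1 a - 1 / 2), ?_⟩, fun z => ?_⟩
  · have : Continuous fun k : KK A => k.1 a := (continuous_apply a).comp continuous_subtype_val
    exact continuous_const.mul (this.sub continuous_const)
  · show (2 * (|M| + 1)) * (g1 z - 1 / 2) = g z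
    rw [hval]
    simp only [c]
    field_simp
    ring

theorem not_beta [T1Space X] (h : Good A) {f : C(X, ℝ)} (hf : f ∉ A) {M : ℝ}
    (hM : ∀ z, |f z| ≤ M) : ¬ IsBeta (ee A) := by
  rw [isBeta_iff (embedding_ee h).continuous dense_ee]
  intro H
  obtain ⟨F, hF⟩ := H f ⟨M, hM⟩
  exact hf (comp_mem h F f fun z => (hF z).symm)

theorem large [T1Space X] (h : Good A) : IsLarge (ee A) := by
  intro V hV hr
  have hsub : Dense V := Dense.mono hr (dense_ee (A := A))
  have hdr : DenseRange (Subtype.val : V → KK A) := by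
    show Dense (range _)
    rw [Subtype.range_coe]
    exact hsub
  rw [isBeta_iff continuous_subtype_val hdr]
  intro g ⟨M, hM⟩
  let eV : X → V := fun z => ⟨ee A z, hr ⟨z, rfl⟩⟩
  have heV : Continuous eV := Continuous.subtype_mk (embedding_ee h).continuous _
  let g0 : C(X, ℝ) := g.comp ⟨eV, heV⟩
  have hg0 : g0 ∈ A := by
    apply h.loc
    intro z
    obtain ⟨W, hW1, hW2, hW3⟩ := exists_mem_nhds_isClosed_subset (hV.mem_nhds (hr ⟨z, rfl⟩))
    let gW : C(W, ℝ) := g.comp ⟨fun w => ⟨w.1, hW3 w.2⟩, by fun_prop⟩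
    obtain ⟨G, hG⟩ := gW.exists_restrict_eq hW2
    refine ⟨ee A ⁻¹' W, (embedding_ee h).continuous.continuousAt.preimage_mem_nhds hW1,
      fun _ => G.comp ⟨ee A, (embedding_ee h).continuous⟩,
      fun _ => comp_mem h G _ fun _ => rfl, ?_⟩
    intro w hw w' hw' hww
    have h1 : ∀ w, w ∈ ee A ⁻¹' W → g0 w = G (ee A w) := by
      intro w hw
      have h2 := congrArg (fun φ : C(W, ℝ) => φ ⟨ee A w, hw⟩) hG
      exact h2.symm
    rw [h1 w hw, h1 w' hw']
    exact hww 0
  obtain ⟨F, hF⟩ := extend_mem hg0 (fun z => hM (eV z))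
  refine ⟨F, fun v => ?_⟩
  have hdV : DenseRange eV := by
    intro v
    rw [closure_subtype]
    have h1 : (Subtype.val '' range eV) = range (ee A) := by
      rw [← range_comp]
      rfl
    rw [h1]
    exact dense_ee _
  have h1 : (fun v : V => F v.1) = g := by
    refine Continuous.ext_on hdV (F.continuous.comp continuous_subtype_val) g.continuous ?_
    rintro _ ⟨z, rfl⟩
    exact hF z
  exact congrFun h1 v

theorem gdelta_closed (h : Good A) : GdeltaClosed (ee A) := by
  intro y hy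
  by_contra hcon
  push Not at hcon
  apply hy
  have hval : ∀ s : Set (Idx A), s.Countable → ∃ z, ∀ a ∈ s, a.1 z = y.1 a := by
    intro s hs
    have h1 : IsGδ (⋂ a ∈ s, {k : KK A | k.1 a = y.1 a}) := by
      refine IsGδ.biInter hs fun a _ => ?_
      have hc : Continuous fun k : KK A => k.1 a :=
        (continuous_apply a).comp continuous_subtype_val
      have h0 : IsClosed {k : KK A | k.1 a = y.1 a} := isClosed_eq hc continuous_const
      have h3 : {k : KK A | k.1 a = y.1 a} = (fun k : KK A => k.1 a) ⁻¹' {y.1 a} := rfl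
      rw [h3]
      exact IsGδ.preimage hc (isClosed_singleton (x := y.1 a)).isGδ
    have h2 := hcon _ h1 (mem_iInter₂.2 fun a _ => rfl)
    rw [not_disjoint_iff] at h2
    obtain ⟨_, h3, ⟨z, rfl⟩⟩ := h2
    exact ⟨z, fun a ha => mem_iInter₂.1 h3 a ha⟩
  obtain ⟨s, hs, hdet⟩ := h.det y.1 hval
  obtain ⟨z, hz⟩ := hval s hs
  refine ⟨z, ?_⟩
  apply Subtype.ext
  funext a
  show a.1 z = y.1 a
  obtain ⟨w, hw⟩ := hval (insert a s) (hs.insert a)
  have h1 : z = w := hdet z w hz fun b hb => hw b (mem_insert_of_mem a hb)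
  rw [h1]
  exact hw a (mem_insert a s)

/-- A space with a good algebra that does not contain all bounded functions fails (**). -/
theorem not_starStar [T1Space X] (h : Good A) {f : C(X, ℝ)} (hf : f ∉ A) {M : ℝ}
    (hM : ∀ z, |f z| ≤ M) : ¬ StarStar X := fun hs =>
  not_beta h hf hM (hs _ (ee A) ⟨inferInstance, inferInstance, embedding_ee h, dense_ee⟩
    (large h) (gdelta_closed h))

end Pool.Agent.J6H78.PS
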