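import Pool.Agent.V11218.LC1

set_option autoImplicit false

/-! Lindelöf spaces satisfy (**): they have only one large compactification. -/

namespace Pool.Agent.J6H78.PS

open Set Filter Topology Pool.Agent.V11218.LC

/-- In a large compactification of a Lindelöf space disjoint closed sets have disjoint closures
(provided the closures do not meet on the space, which is automatic). -/
theorem disjoint_closures {X K : Type} [TopologicalSpace X] [LindelofSpace X] [TopologicalSpace K]
    [CompactSpace K] [T2Space K] {e : X → K} (hemb : IsEmbedding e) (hd : DenseRange e)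
    (hl : IsLarge e) {Z0 Z1 : Set X} (h0 : IsClosed Z0) (h1 : IsClosed Z1) (hdis : Disjoint Z0 Z1) :
    Disjoint (closure (e '' Z0)) (closure (e '' Z1)) := by
  classical
  set D : Set K := closure (e '' Z0) ∩ closure (e '' Z1) with hD
  have hDc : IsClosed D := isClosed_closure.inter isClosed_closure
  have hmem : ∀ (Z : Set X), IsClosed Z → ∀ x, e x ∈ closure (e '' Z) → x ∈ Z := by
    intro Z hZ x hx
    have h2 : x ∈ closure Z := by
      rw [hemb.isInducing.closure_eq_preimage_closure_image]
      exact hx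
    rwa [hZ.closure_eq] at h2
  have hxD : ∀ x, e x ∉ D := fun x hx =>
    disjoint_left.1 hdis (hmem Z0 h0 x hx.1) (hmem Z1 h1 x hx.2)
  have hsep : ∀ x : X, ∃ h : C(K, ℝ), h (e x) = 1 ∧ ∀ k ∈ D, h k = 0 := by
    intro x
    obtain ⟨F, hF0, hF1, -⟩ := exists_continuous_zero_one_of_isClosed hDc
      (isClosed_singleton (x := e x)) (by
        rw [disjoint_singleton_right]; exact hxD x)
    exact ⟨F, hF1 (mem_singleton _), fun k hk => hF0 hk⟩
  choose h hh1 hh0 using hsep
  obtain ⟨t, htc, ht⟩ := LindelofSpace.elim_nhds_subcover (fun x : X => {y | 0 < h x (e y)})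
    fun x => (isOpen_lt continuous_const ((h x).continuous.comp hemb.continuous)).mem_nhds (by
      show 0 < h x (e x)
      rw [hh1]; exact one_pos)
  set V : Set K := ⋃ x ∈ t, {k | 0 < h x k} with hV
  have hVo : IsOpen V := isOpen_biUnion fun x _ => isOpen_lt continuous_const (h x).continuous
  have hVr : range e ⊆ V := by
    rintro _ ⟨y, rfl⟩
    have : y ∈ ⋃ x ∈ t, {y | 0 < h x (e y)} := by rw [ht]; trivial
    simp only [mem_iUnion] at this
    obtain ⟨x, hx, hy⟩ := this
    exact mem_biUnion hx hy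
  have hVD : ∀ k ∈ V, k ∉ D := by
    intro k hk hkD
    simp only [hV, mem_iUnion] at hk
    obtain ⟨x, hx, hy⟩ := hk
    have h2 : 0 < h x k := hy
    rw [hh0 x k hkD] at h2
    exact lt_irrefl _ h2
  have hVl : IsLindelof V := by
    refine htc.isLindelof_biUnion fun x _ => ?_
    have h2 : {k | 0 < h x k} = ⋃ n : ℕ, {k | 1 / ((n : ℝ) + 1) ≤ h x k} := by
      ext k
      simp only [mem_ofPred_eq, mem_iUnion]
      constructor
      · intro hk
        obtain ⟨n, hn⟩ := exists_nat_one_div_lt hk
        exact ⟨n, hn.le⟩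
      · rintro ⟨n, hn⟩
        exact lt_of_lt_of_le (by positivity) hn
    rw [h2]
    exact isLindelof_iUnion fun n =>
      (isClosed_le continuous_const (h x).continuous).isCompact.isLindelof
  haveI : LindelofSpace V := isLindelof_iff_LindelofSpace.1 hVl
  -- separate in `V`
  obtain ⟨F, hF0, hF1, hF⟩ := exists_continuous_zero_one_of_isClosed
    (s := {v : V | v.1 ∈ closure (e '' Z0)}) (t := {v : V | v.1 ∈ closure (e '' Z1)})
    (isClosed_closure.preimage continuous_subtype_val)
    (isClosed_closure.preimage continuous_subtype_val)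
    (disjoint_left.2 fun v hv hv' => hVD v.1 v.2 ⟨hv, hv'⟩)
  have hdr : DenseRange (Subtype.val : V → K) := by
    show Dense (range _)
    rw [Subtype.range_coe]
    exact Dense.mono hVr hd
  have hb := hl V hVo hVr
  rw [isBeta_iff continuous_subtype_val hdr] at hb
  obtain ⟨G, hG⟩ := hb F ⟨1, fun v => by
    have := hF v
    rw [abs_le]
    exact ⟨by linarith [this.1], this.2⟩⟩
  have hg0 : ∀ k ∈ closure (e '' Z0), G k = 0 := by
    have h2 : IsClosed {k | G k = 0} := isClosed_eq G.continuous continuous_const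
    intro k hk
    refine h2.closure_subset_iff.2 ?_ hk
    rintro _ ⟨z, hz, rfl⟩
    have h3 : (⟨e z, hVr ⟨z, rfl⟩⟩ : V) ∈ {v : V | v.1 ∈ closure (e '' Z0)} :=
      subset_closure ⟨z, hz, rfl⟩
    have h4 := hF0 h3
    exact (hG ⟨e z, hVr ⟨z, rfl⟩⟩).trans h4
  have hg1 : ∀ k ∈ closure (e '' Z1), G k = 1 := by
    have h2 : IsClosed {k | G k = 1} := isClosed_eq G.continuous continuous_const
    intro k hk
    refine h2.closure_subset_iff.2 ?_ hk
    rintro _ ⟨z, hz, rfl⟩
    have h3 : (⟨e z, hVr ⟨z, rfl⟩⟩ : V) ∈ {v : V | v.1 ∈ closure (e '' Z1)} :=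
      subset_closure ⟨z, hz, rfl⟩
    have h4 := hF1 h3
    exact (hG ⟨e z, hVr ⟨z, rfl⟩⟩).trans h4
  refine disjoint_left.2 fun k hk hk' => ?_
  have h2 := hg0 k hk
  rw [hg1 k hk'] at h2
  exact one_ne_zero h2

/-- Lindelöf spaces satisfy (**). -/
theorem starStar_of_lindelof (X : Type) [TopologicalSpace X] [LindelofSpace X] : StarStar X := by
  intro K _ e he hl _
  obtain ⟨hK1, hK2, hemb, hd⟩ := he
  rw [isBeta_iff hemb.continuous hd]
  intro f ⟨M, hM⟩
  have hdi : IsDenseInducing e := ⟨hemb.isInducing, hd⟩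
  have hlim : ∀ k : K, ∃ c, Tendsto f (comap e (𝓝 k)) (𝓝 c) := by
    intro k
    haveI : NeBot (comap e (𝓝 k)) := hdi.comap_nhds_neBot k
    have hmemI : Icc (-M) M ∈ map f (comap e (𝓝 k)) := by
      rw [mem_map]
      exact Filter.Eventually.of_forall fun x => abs_le.1 (hM x)
    obtain ⟨c, hc, hcl⟩ := isCompact_Icc.exists_clusterPt (f := map f (comap e (𝓝 k)))
      (le_principal_iff.2 hmemI)
    have key : ∀ c1 c2 : ℝ, ClusterPt c1 (map f (comap e (𝓝 k))) →
        ClusterPt c2 (map f (comap e (𝓝 k))) → c1 < c2 → False := by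
      intro c1 c2 h1 h2 h12
      obtain ⟨a, ha1, ha2⟩ := exists_between h12
      obtain ⟨b, hb1, hb2⟩ := exists_between ha2
      have hin : ∀ (c : ℝ) (Z : Set X), ClusterPt c (map f (comap e (𝓝 k))) →
          (∃ O : Set ℝ, O ∈ 𝓝 c ∧ f ⁻¹' O ⊆ Z) → k ∈ closure (e '' Z) := by
        rintro c Z hcl ⟨O, hO, hOZ⟩
        rw [mem_closure_iff_nhds]
        intro W hW
        have h3 : f '' (e ⁻¹' W) ∈ map f (comap e (𝓝 k)) := image_mem_map (preimage_mem_comap hW)
        obtain ⟨y, hy1, x, hx, rfl⟩ := clusterPt_iff_nonempty.1 hcl hO h3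
        exact ⟨e x, hx, x, hOZ hy1, rfl⟩
      have d := disjoint_closures hemb hd hl (Z0 := {x | f x ≤ a}) (Z1 := {x | b ≤ f x})
        (isClosed_le f.continuous continuous_const) (isClosed_le continuous_const f.continuous)
        (disjoint_left.2 fun x hx hx' => by
          have h3 : f x ≤ a := hx
          have h4 : b ≤ f x := hx'
          linarith)
      refine disjoint_left.1 d (hin c1 _ h1 ⟨Iio a, Iio_mem_nhds ha1, fun x hx => ?_⟩)
        (hin c2 _ h2 ⟨Ioi b, Ioi_mem_nhds hb2, fun x hx => ?_⟩)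
      · exact (show f x < a from hx).le
      · exact (show b < f x from hx).le
    refine ⟨c, isCompact_Icc.le_nhds_of_unique_clusterPt hmemI fun c' _ hc' => ?_⟩
    by_contra hne
    rcases lt_or_gt_of_ne hne with h | h
    · exact key _ _ hc' hcl h
    · exact key _ _ hcl hc' h
  refine ⟨⟨hdi.extend f, hdi.continuous_extend hlim⟩, fun x => ?_⟩
  exact hdi.extend_eq f.continuous x

end Pool.Agent.J6H78.PS
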