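import Pool.Agent.J6H78.PS.Key
import Pool.Agent.J6H78.PS.Comp
import Pool.Agent.J6H78.PS.Lind

set_option autoImplicit false

/-! The algebra on the product. -/

namespace Pool.Agent.J6H78.PS

open Set Filter Topology Pool.Agent.W642.HG

variable {R : Set (ℕ → Bool)}

/-- The product. -/
abbrev XX (R : Set (ℕ → Bool)) : Type := Mi R × (Qt R × unitInterval)

theorem val_mem {u p : List (Bool × ℕ)} (h : u <:+ p) (c : Fin 3) :
    left u ≤ val p c ∧ val p c ≤ left u + (1 / 2) ^ u.length := by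
  obtain ⟨h1, h2⟩ := left_bounds h
  have h3 : (0 : ℝ) < (1 / 2) ^ p.length := by positivity
  have h4 : ((c : ℕ) : ℝ) ≤ 2 := by
    have := c.2
    exact_mod_cast (by omega : (c : ℕ) ≤ 2)
  have h5 : (0 : ℝ) ≤ ((c : ℕ) : ℝ) := by positivity
  simp only [val, pow_succ]
  constructor <;> nlinarith

theorem val_Icc (p : List (Bool × ℕ)) (c : Fin 3) : val p c ∈ Icc (0 : ℝ) 1 := by
  have h := val_mem (u := []) (p := p) List.nil_suffix c
  simp only [left, List.length_nil, pow_zero, zero_add] at h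
  exact h

theorem left_Icc (p : List (Bool × ℕ)) : 0 ≤ left p ∧ left p + (1 / 2) ^ p.length ≤ 1 := by
  have h := left_bounds (u := []) (p := p) List.nil_suffix
  simp only [left, List.length_nil, pow_zero, zero_add] at h
  exact h

/-- the points of the interval -/
noncomputable def vI (p : List (Bool × ℕ)) (c : Fin 3) : unitInterval := ⟨val p c, val_Icc p c⟩

/-- the limit points -/
noncomputable def fI (x : ℕ → Bool × ℕ) : unitInterval := ⟨⨆ i, left (ini x i), by
  have h := left_ini_bounds x 0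
  simp only [ini, left, pow_zero, zero_add] at h
  exact h⟩

/-- the label as a point -/
def Mi.mk (r : ℕ → Bool) : Mi R := r

/-- the points that define the algebra -/
noncomputable def pt (p : List (Bool × ℕ)) (r : R) (c : Fin 3) : XX R :=
  (Mi.mk r.1, Qt.node p r, vI p c)

theorem tendsto_pt (p : List (Bool × ℕ)) (r : R) (c c' : Fin 3) (i : Bool)
    (h : val ((i, 0) :: p) c' = val p c) :
    Tendsto (fun n => pt ((i, n) :: p) r c') atTop (𝓝 (pt p r c)) := by
  refine Tendsto.prodMk_nhds tendsto_const_nhds (Tendsto.prodMk_nhds (Qt.tendsto_child p r i) ?_)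
  refine tendsto_const_nhds.congr fun n => ?_
  refine Subtype.ext ?_
  show val p c = val ((i, n) :: p) c'
  rw [← h]
  rfl

theorem desc (g : C(XX R, ℝ)) (p : List (Bool × ℕ)) (r : R) (h : g (pt p r 0) ≠ g (pt p r 2)) :
    ∃ a, g (pt (a :: p) r 0) ≠ g (pt (a :: p) r 2) := by
  have h4 : ∀ (b : Bool) (c c' : Fin 3), val ((b, 0) :: p) 0 = val p c →
      val ((b, 0) :: p) 2 = val p c' → g (pt p r c) ≠ g (pt p r c') →
      ∃ n, g (pt ((b, n) :: p) r 0) ≠ g (pt ((b, n) :: p) r 2) := by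
    intro b c c' e1 e2 hne
    by_contra hcon
    push Not at hcon
    have t1 := (g.continuous.tendsto _).comp (tendsto_pt p r c 0 b e1)
    have t2 := (g.continuous.tendsto _).comp (tendsto_pt p r c' 2 b e2)
    exact hne (tendsto_nhds_unique t1 (t2.congr fun n => (hcon n).symm))
  by_cases h0 : g (pt p r 0) = g (pt p r 1)
  · obtain ⟨n, hn⟩ := h4 true 1 2 (val_child_one p 0).1 (val_child_one p 0).2
      (fun h3 => h (h0.trans h3))
    exact ⟨_, hn⟩
  · obtain ⟨n, hn⟩ := h4 false 0 1 (val_child_zero p 0).1 (val_child_zero p 0).2 h0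
    exact ⟨_, hn⟩

/-- The algebra. -/
def alg (R : Set (ℕ → Bool)) : Subalgebra ℝ C(XX R, ℝ) where
  carrier := {g | ∀ p, {r : R | g (pt p r 0) ≠ g (pt p r 2)}.Countable}
  mul_mem' {a b} ha hb p := by
    refine ((ha p).union (hb p)).mono fun r hr => ?_
    by_contra hcon
    simp only [mem_union, mem_ofPred_eq, not_or, not_not] at hcon
    exact hr (by simp only [ContinuousMap.mul_apply, hcon.1, hcon.2])
  add_mem' {a b} ha hb p := by
    refine ((ha p).union (hb p)).mono fun r hr => ?_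
    by_contra hcon
    simp only [mem_union, mem_ofPred_eq, not_or, not_not] at hcon
    exact hr (by simp only [ContinuousMap.add_apply, hcon.1, hcon.2])
  algebraMap_mem' c p := by
    convert countable_empty (α := R) using 1
    ext r
    simp

theorem mem_alg {g : C(XX R, ℝ)} :
    g ∈ alg R ↔ ∀ p, {r : R | g (pt p r 0) ≠ g (pt p r 2)}.Countable := Iff.rfl

/-- the projection to the interval -/
noncomputable def fC : C(XX R, ℝ) := ⟨fun z => z.2.2.1, by fun_prop⟩

theorem fC_notMem (hR : ¬ R.Countable) : (fC : C(XX R, ℝ)) ∉ alg R := by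
  intro h
  have h1 := h []
  have h2 : {r : R | (fC : C(XX R, ℝ)) (pt [] r 0) ≠ fC (pt [] r 2)} = univ := by
    ext r
    simp only [mem_ofPred_eq, mem_univ, iff_true]
    show val [] 0 ≠ val [] 2
    simp [val, left]
  rw [h2, countable_univ_iff] at h1
  exact hR (Set.countable_coe_iff.1 h1)

theorem alg_comp (g : C(XX R, ℝ)) (S : ℕ → C(XX R, ℝ)) (hS : ∀ n, S n ∈ alg R)
    (h : ∀ z w, (∀ n, S n z = S n w) → g z = g w) : g ∈ alg R := by
  intro p
  refine (countable_iUnion fun n => hS n p).mono fun r hr => ?_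
  by_contra hcon
  simp only [mem_iUnion, mem_ofPred_eq, not_exists, not_not] at hcon
  exact hr (h _ _ hcon)

theorem alg_loc (hR : ∀ e : (ℕ → Bool) → (ℕ → Bool), Continuous e → Function.Injective e →
    ∃ y, e y ∉ R) (g : C(XX R, ℝ))
    (h : ∀ z : XX R, ∃ U ∈ 𝓝 z, ∃ S : ℕ → C(XX R, ℝ), (∀ n, S n ∈ alg R) ∧
      ∀ w ∈ U, ∀ w' ∈ U, (∀ n, S n w = S n w') → g w = g w') : g ∈ alg R := by
  intro p0
  refine key hR (fun p r => g (pt p r 0) ≠ g (pt p r 2)) (desc g) ?_ p0
  intro x r hr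
  obtain ⟨U, hU, S, hS, hg⟩ := h (Mi.mk r, Qt.br x r, fI x)
  obtain ⟨V1, hV1, W, hW, hUW⟩ := mem_nhds_prod_iff.1 hU
  obtain ⟨V2, hV2, V3, hV3, hW'⟩ := mem_nhds_prod_iff.1 hW
  obtain ⟨j1, hj1⟩ := Mi.nhds_notMem (Mi.mk r) hr hV1
  obtain ⟨j2, hj2⟩ := Qt.nhds_br x r hV2
  obtain ⟨ε, hε, hV3'⟩ := Metric.mem_nhds_iff.1 hV3
  obtain ⟨j3, hj3⟩ := exists_pow_lt_of_lt_one hε (by norm_num : (1 / 2 : ℝ) < 1)
  refine ⟨max (max j1 j2) j3, fun k hk => ?_⟩
  refine (countable_iUnion fun n => hS n (ini x k)).mono ?_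
  rintro r' ⟨h1, h2⟩
  by_contra hcon
  simp only [mem_iUnion, mem_ofPred_eq, not_exists, not_not] at hcon
  have h3 : ∀ c, pt (ini x k) r' c ∈ U := by
    intro c
    refine hUW ⟨hj1 _ fun i hi => h1 i (by omega), hW' ⟨hj2 _ ?_ fun i hi => h1 i (by omega),
      hV3' ?_⟩⟩
    · exact ini_suffix x (by omega)
    · rw [Metric.mem_ball, Subtype.dist_eq, Real.dist_eq]
      show |val (ini x k) c - ⨆ i, left (ini x i)| < ε
      have h4 := val_mem (List.suffix_refl (ini x k)) c
      have h5 := left_ini_bounds x k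
      have h6 : (1 / 2 : ℝ) ^ k ≤ (1 / 2) ^ j3 :=
        pow_le_pow_of_le_one (by norm_num) (by norm_num) (by omega)
      rw [ini_length] at h4
      rw [abs_lt]
      constructor <;> linarith [h4.1, h4.2, h5.1, h5.2]
  exact h2 (hg _ (h3 0) _ (h3 2) hcon)

/-! ### The blocks -/

/-- the products of indicators and functions on the interval -/
noncomputable def bl (V : Set (Mi R × Qt R)) (hV : IsClopen V) (φ : C(unitInterval, ℝ)) :
    C(XX R, ℝ) :=
  (LocallyConstant.charFn ℝ hV).toContinuousMap.comp ⟨fun z => (z.1, z.2.1), by fun_prop⟩ *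
    φ.comp ⟨fun z => z.2.2, by fun_prop⟩

theorem bl_mem {V : Set (Mi R × Qt R)} (hV : IsClopen V) (φ : C(unitInterval, ℝ)) {z : XX R}
    (h : (z.1, z.2.1) ∈ V) : bl V hV φ z = φ z.2.2 := by
  show (LocallyConstant.charFn ℝ hV) (z.1, z.2.1) * φ z.2.2 = _
  rw [LocallyConstant.coe_charFn]
  simp [h]

theorem bl_notMem {V : Set (Mi R × Qt R)} (hV : IsClopen V) (φ : C(unitInterval, ℝ)) {z : XX R}
    (h : (z.1, z.2.1) ∉ V) : bl V hV φ z = 0 := by
  show (LocallyConstant.charFn ℝ hV) (z.1, z.2.1) * φ z.2.2 = _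
  rw [LocallyConstant.coe_charFn]
  simp [h]

/-- the condition for the blocks -/
def Cond (V : Set (Mi R × Qt R)) (φ : C(unitInterval, ℝ)) : Prop :=
  ∀ p, {r : R | ((Mi.mk r.1, Qt.node p r) : Mi R × Qt R) ∈ V ∧ φ (vI p 0) ≠ φ (vI p 2)}.Countable

theorem bl_mem_alg {V : Set (Mi R × Qt R)} (hV : IsClopen V) {φ : C(unitInterval, ℝ)}
    (hc : Cond V φ) : bl V hV φ ∈ alg R := by
  intro p
  refine (hc p).mono fun r hr => ?_
  by_cases h : ((Mi.mk r.1, Qt.node p r) : Mi R × Qt R) ∈ V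
  · refine ⟨h, fun heq => hr ?_⟩
    rw [bl_mem hV φ (z := pt p r 0) h, bl_mem hV φ (z := pt p r 2) h]
    exact heq
  · exact absurd ((bl_notMem hV φ (z := pt p r 0) h).trans
      (bl_notMem hV φ (z := pt p r 2) h).symm) hr

/-- blocks as indices -/
noncomputable def mkI (V : Set (Mi R × Qt R)) (hV : IsClopen V) (φ : C(unitInterval, ℝ))
    (hφ : ∀ s, φ s ∈ Icc (0 : ℝ) 1) (hc : Cond V φ) : Idx (alg R) :=
  ⟨bl V hV φ, bl_mem_alg hV hc, fun z => by
    by_cases h : (z.1, z.2.1) ∈ V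
    · rw [bl_mem hV φ h]; exact hφ _
    · rw [bl_notMem hV φ h]; exact ⟨le_rfl, zero_le_one⟩⟩

theorem iff_of_bl {V : Set (Mi R × Qt R)} (hV : IsClopen V) {z w : XX R}
    (h : bl V hV 1 z = bl V hV 1 w) : (z.1, z.2.1) ∈ V ↔ (w.1, w.2.1) ∈ V := by
  by_cases h1 : (z.1, z.2.1) ∈ V
  · rw [bl_mem hV 1 h1] at h
    by_cases h2 : (w.1, w.2.1) ∈ V
    · exact ⟨fun _ => h2, fun _ => h1⟩
    · rw [bl_notMem hV 1 h2] at h
      simp at h
  · rw [bl_notMem hV 1 h1] at h
    by_cases h2 : (w.1, w.2.1) ∈ V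
    · rw [bl_mem hV 1 h2] at h
      simp at h
    · exact ⟨fun h3 => absurd h3 h1, fun h3 => absurd h3 h2⟩

theorem cond_one (V : Set (Mi R × Qt R)) : Cond V 1 := by
  intro p
  convert countable_empty (α := R) using 1
  ext r
  simp

/-- the bump function -/
noncomputable def bump (t : unitInterval) (ε : ℝ) : C(unitInterval, ℝ) :=
  ⟨fun s => max 0 (min 1 (2 - 2 * |s.1 - t.1| / ε)), by fun_prop⟩

theorem bump_Icc (t : unitInterval) (ε : ℝ) (s : unitInterval) : bump t ε s ∈ Icc (0 : ℝ) 1 :=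
  ⟨le_max_left _ _, max_le zero_le_one (min_le_left _ _)⟩

theorem bump_one {t : unitInterval} {ε : ℝ} (hε : 0 < ε) {s : unitInterval}
    (h : |s.1 - t.1| ≤ ε / 2) : bump t ε s = 1 := by
  show max 0 (min 1 (2 - 2 * |s.1 - t.1| / ε)) = 1
  have h1 : 2 * |s.1 - t.1| / ε ≤ 1 := by
    rw [div_le_one hε]
    linarith
  rw [min_eq_left (by linarith), max_eq_right zero_le_one]

theorem bump_zero {t : unitInterval} {ε : ℝ} (hε : 0 < ε) {s : unitInterval}
    (h : ε ≤ |s.1 - t.1|) : bump t ε s = 0 := by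
  show max 0 (min 1 (2 - 2 * |s.1 - t.1| / ε)) = 0
  have h1 : 2 ≤ 2 * |s.1 - t.1| / ε := by
    rw [le_div_iff₀ hε]
    linarith
  exact max_eq_left ((min_le_right _ _).trans (by linarith))

theorem alg_reg (z : XX R) (U : Set (XX R)) (hU : U ∈ 𝓝 z) :
    ∃ a : Idx (alg R), a.1 z = 1 ∧ ∀ w, w ∉ U → a.1 w = 0 := by
  obtain ⟨m, q, t⟩ := z
  obtain ⟨U1, hU1, W, hW, hUW⟩ := mem_nhds_prod_iff.1 hU
  obtain ⟨U2, hU2, U3, hU3, hW'⟩ := mem_nhds_prod_iff.1 hW
  obtain ⟨V1, hV1, hm, hV1U⟩ := exists_clopen_of_embedding Mi.isEmbedding_Φ.isInducing m hU1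
  obtain ⟨V2, hV2, hq, hV2U⟩ := exists_clopen_of_embedding Qt.isEmbedding_Ψ.isInducing q hU2
  obtain ⟨ε, hε, hV3U⟩ := Metric.mem_nhds_iff.1 hU3
  -- the general form of the conclusion
  have fin : ∀ (V : Set (Mi R × Qt R)) (_ : IsClopen V) (ε' : ℝ), 0 < ε' → ε' ≤ ε →
      (m, q) ∈ V → V ⊆ V1 ×ˢ V2 → Cond V (bump t ε') →
      ∃ a : Idx (alg R), a.1 (m, q, t) = 1 ∧ ∀ w, w ∉ U → a.1 w = 0 := by
    intro V hV ε' hε' hle hmq hVV hc
    refine ⟨mkI V hV (bump t ε') (bump_Icc t ε') hc, ?_, fun w hw => ?_⟩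
    · show bl V hV (bump t ε') (m, q, t) = 1
      rw [bl_mem hV _ (z := (m, q, t)) hmq]
      refine bump_one hε' ?_
      show |t.1 - t.1| ≤ ε' / 2
      rw [sub_self, abs_zero]
      exact (half_pos hε').le
    · show bl V hV (bump t ε') w = 0
      by_cases h : (w.1, w.2.1) ∈ V
      · rw [bl_mem hV _ h]
        refine bump_zero hε' (hle.trans ?_)
        by_contra hlt
        push Not at hlt
        have h1 := hVV h
        refine hw (hUW ⟨hV1U h1.1, hW' ⟨hV2U h1.2, hV3U ?_⟩⟩)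
        rw [Metric.mem_ball, Subtype.dist_eq, Real.dist_eq]
        exact hlt
      · exact bl_notMem hV _ h
  cases q with
  | node p r =>
    by_cases hmr : m.lab = r.1
    · -- the diagonal case
      refine fin ((V1 ∩ {m' : Mi R | m'.lab = r.1}) ×ˢ V2)
        ((hV1.inter (Mi.isClopen_pt r)).prod hV2) ε hε le_rfl ⟨⟨hm, hmr⟩, hq⟩
        (fun w hw => ⟨hw.1.1, hw.2⟩) ?_
      intro p'
      refine (countable_singleton r).mono ?_
      rintro r' ⟨h1, -⟩
      exact Subtype.ext h1.1.2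
    · -- off the diagonal
      obtain ⟨i, hi⟩ := Function.ne_iff.1 hmr
      have hc1 : IsClopen {m' : Mi R | m'.lab i = m.lab i} :=
        (isClopen_discrete {m.lab i}).preimage ((continuous_apply i).comp Mi.continuous_lab)
      have hc2 : IsClopen {q' : Qt R | Qt.lab q' i = r.1 i} :=
        (isClopen_discrete {r.1 i}).preimage ((continuous_apply i).comp Qt.continuous_lab)
      refine fin ((V1 ∩ {m' : Mi R | m'.lab i = m.lab i}) ×ˢ (V2 ∩ {q' : Qt R | Qt.lab q' i = r.1 i}))
        ((hV1.inter hc1).prod (hV2.inter hc2)) ε hε le_rfl ⟨⟨hm, rfl⟩, hq, rfl⟩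
        (fun w hw => ⟨hw.1.1, hw.2.1⟩) ?_
      intro p'
      refine countable_empty.mono ?_
      rintro r' ⟨h1, -⟩
      have h2 : r'.1 i = m.lab i := h1.1.2
      have h3 : r'.1 i = r.1 i := h1.2.2
      exact hi (h2.symm.trans h3)
  | br x s =>
    -- the interval
    have main : ∃ ε' : ℝ, 0 < ε' ∧ ε' ≤ ε ∧ ∃ k, ∀ c : unitInterval,
        |c.1 - (fI x).1| ≤ (1 / 2) ^ k → ∀ c' : unitInterval,
        |c'.1 - (fI x).1| ≤ (1 / 2) ^ k → bump t ε' c = bump t ε' c' := by
      by_cases htf : t = fI x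
      · obtain ⟨k, hk⟩ := exists_pow_lt_of_lt_one (half_pos hε) (by norm_num : (1 / 2 : ℝ) < 1)
        refine ⟨ε, hε, le_rfl, k, fun c hc c' hc' => ?_⟩
        rw [bump_one hε (by rw [htf]; linarith), bump_one hε (by rw [htf]; linarith)]
      · have hpos : 0 < |t.1 - (fI x).1| := abs_pos.2 (fun h => htf (Subtype.ext (by linarith)))
        have hε' : 0 < min ε (|t.1 - (fI x).1| / 2) := lt_min hε (half_pos hpos)
        obtain ⟨k, hk⟩ := exists_pow_lt_of_lt_one (half_pos hpos) (by norm_num : (1 / 2 : ℝ) < 1)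
        have hz : ∀ c : unitInterval, |c.1 - (fI x).1| ≤ (1 / 2) ^ k →
            bump t (min ε (|t.1 - (fI x).1| / 2)) c = 0 := by
          intro c hc
          refine bump_zero hε' ((min_le_right _ _).trans ?_)
          have h1 : |t.1 - (fI x).1| ≤ |c.1 - t.1| + |c.1 - (fI x).1| := by
            have h2 : t.1 - (fI x).1 = -(c.1 - t.1) + (c.1 - (fI x).1) := by ring
            rw [h2]
            refine (abs_add_le _ _).trans ?_
            rw [abs_neg]
          linarith
        exact ⟨_, hε', min_le_left _ _, k, fun c hc c' hc' => by rw [hz c hc, hz c' hc']⟩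
    obtain ⟨ε', hε', hle, k, hk⟩ := main
    refine fin (V1 ×ˢ (V2 ∩ {q' : Qt R | Qt.inP (ini x k) q'}))
      (hV1.prod (hV2.inter (Qt.isClopen_inP _))) ε' hε' hle ⟨hm, hq, Qt.inP_br (R := R) x s k⟩
      (fun w hw => ⟨hw.1, hw.2.1⟩) ?_
    intro p'
    refine countable_empty.mono ?_
    rintro r' ⟨h1, h2⟩
    have h3 : ini x k <:+ p' := h1.2.2
    have h4 : ∀ c, |(vI p' c).1 - (fI x).1| ≤ (1 / 2) ^ k := by
      intro c
      have h5 := val_mem h3 c
      have h6 := left_ini_bounds x k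
      rw [ini_length] at h5
      show |val p' c - ⨆ i, left (ini x i)| ≤ _
      rw [abs_le]
      constructor <;> linarith [h5.1, h5.2, h6.1, h6.2]
    exact h2 (hk _ (h4 0) _ (h4 2))

/-! ### Determination -/

theorem isClopen_labM (i : ℕ) : IsClopen {x : Mi R × Qt R | x.1.lab i = true} :=
  (isClopen_discrete {true}).preimage
    ((continuous_apply i).comp (Mi.continuous_lab.comp continuous_fst))

theorem isClopen_labQ (i : ℕ) : IsClopen {x : Mi R × Qt R | Qt.lab x.2 i = true} :=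
  (isClopen_discrete {true}).preimage
    ((continuous_apply i).comp (Qt.continuous_lab.comp continuous_snd))

theorem isClopen_path (u : List (Bool × ℕ)) : IsClopen {x : Mi R × Qt R | Qt.inP u x.2} :=
  (Qt.isClopen_inP u).preimage continuous_snd

theorem isClopen_off (i : ℕ) : IsClopen {x : Mi R × Qt R | x.1.lab i ≠ Qt.lab x.2 i} := by
  have h : Continuous fun x : Mi R × Qt R => (x.1.lab i, Qt.lab x.2 i) :=
    ((continuous_apply i).comp (Mi.continuous_lab.comp continuous_fst)).prodMk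
      ((continuous_apply i).comp (Qt.continuous_lab.comp continuous_snd))
  exact (isClopen_discrete {b : Bool × Bool | b.1 ≠ b.2}).preimage h

theorem isClopen_eqM (e : R) : IsClopen {x : Mi R × Qt R | x.1.lab = e.1} :=
  (Mi.isClopen_pt e).preimage continuous_fst

/-- the coordinate of the interval -/
noncomputable def co : C(unitInterval, ℝ) := ⟨fun s => s.1, continuous_subtype_val⟩

/-- the coordinate cut from above -/
noncomputable def coMin (u : List (Bool × ℕ)) : C(unitInterval, ℝ) :=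
  ⟨fun s => min s.1 (left u), by fun_prop⟩

/-- the coordinate cut from below -/
noncomputable def coMax (u : List (Bool × ℕ)) : C(unitInterval, ℝ) :=
  ⟨fun s => max s.1 (left u + (1 / 2) ^ u.length), by fun_prop⟩

theorem one_Icc (s : unitInterval) : (1 : C(unitInterval, ℝ)) s ∈ Icc (0 : ℝ) 1 :=
  ⟨zero_le_one, le_rfl⟩

noncomputable def F1 (i : ℕ) : Idx (alg R) :=
  mkI {x : Mi R × Qt R | x.1.lab i = true} (isClopen_labM i) 1 one_Icc (cond_one _)

noncomputable def F2 (u : List (Bool × ℕ)) : Idx (alg R) :=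
  mkI {x : Mi R × Qt R | Qt.inP u x.2} (isClopen_path u) 1 one_Icc (cond_one _)

noncomputable def F3 (i : ℕ) : Idx (alg R) :=
  mkI {x : Mi R × Qt R | Qt.lab x.2 i = true} (isClopen_labQ i) 1 one_Icc (cond_one _)

noncomputable def F4 (i : ℕ) : Idx (alg R) :=
  mkI {x : Mi R × Qt R | x.1.lab i ≠ Qt.lab x.2 i} (isClopen_off i) co (fun s => s.2) (by
    intro p
    refine countable_empty.mono ?_
    rintro r ⟨h1, -⟩
    exact h1 rfl)

noncomputable def F5 (u : List (Bool × ℕ)) : Idx (alg R) :=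
  mkI {x : Mi R × Qt R | Qt.inP u x.2} (isClopen_path u) (coMin u)
    (fun s => ⟨le_min s.2.1 (left_Icc u).1, (min_le_left _ _).trans s.2.2⟩) (by
    intro p
    refine countable_empty.mono ?_
    rintro r ⟨h1, h2⟩
    apply h2
    have h3 : u <:+ p := h1
    show min (val p 0) (left u) = min (val p 2) (left u)
    rw [min_eq_right (val_mem h3 0).1, min_eq_right (val_mem h3 2).1])

noncomputable def F6 (u : List (Bool × ℕ)) : Idx (alg R) :=
  mkI {x : Mi R × Qt R | Qt.inP u x.2} (isClopen_path u) (coMax u)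
    (fun s => ⟨le_max_of_le_left s.2.1, max_le s.2.2 (left_Icc u).2⟩) (by
    intro p
    refine countable_empty.mono ?_
    rintro r ⟨h1, h2⟩
    apply h2
    have h3 : u <:+ p := h1
    show max (val p 0) _ = max (val p 2) _
    rw [max_eq_right (val_mem h3 0).2, max_eq_right (val_mem h3 2).2])

noncomputable def F7 (e : R) : Idx (alg R) :=
  mkI {x : Mi R × Qt R | x.1.lab = e.1} (isClopen_eqM e) co (fun s => s.2) (by
    intro p
    refine (countable_singleton e).mono ?_
    rintro r ⟨h1, -⟩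
    exact Subtype.ext h1)

/-- the countable family -/
def s0 (R : Set (ℕ → Bool)) : Set (Idx (alg R)) :=
  range F1 ∪ range F2 ∪ range F3 ∪ range F4 ∪ range F5 ∪ range F6

theorem s0_countable : (s0 R).Countable :=
  (((((countable_range _).union (countable_range _)).union (countable_range _)).union
    (countable_range _)).union (countable_range _)).union (countable_range _)

theorem eq_of_s0 {z w : XX R} (h : ∀ a ∈ s0 R, a.1 z = a.1 w) : z.1 = w.1 ∧ z.2.1 = w.2.1 := by
  constructor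
  · have h1 : z.1.lab = w.1.lab := by
      funext i
      have h2 := iff_of_bl (isClopen_labM i) (h (F1 i) (by simp [s0]))
      exact Bool.eq_iff_iff.2 h2
    exact h1
  · refine Qt.inP_iff_of_Ψ (fun u => ?_) ?_
    · exact iff_of_bl (isClopen_path u) (h (F2 u) (by simp [s0]))
    · funext i
      have h2 := iff_of_bl (isClopen_labQ i) (h (F3 i) (by simp [s0]))
      exact Bool.eq_iff_iff.2 h2

theorem eq_of_cuts {x : ℕ → Bool × ℕ} {t t' : ℝ}
    (h1 : ∀ k, min t (left (ini x k)) = min t' (left (ini x k)))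
    (h2 : ∀ k, max t (left (ini x k) + (1 / 2) ^ k) = max t' (left (ini x k) + (1 / 2) ^ k)) :
    ¬ t < t' := by
  intro hlt
  rcases lt_or_ge t (⨆ i, left (ini x i)) with h | h
  · obtain ⟨k, hk⟩ := exists_pow_lt_of_lt_one (sub_pos.2 h) (by norm_num : (1 / 2 : ℝ) < 1)
    have h3 := left_ini_bounds x k
    have h4 : t < left (ini x k) := by linarith [h3.2]
    have h5 := h1 k
    rw [min_eq_left h4.le] at h5
    have h6 : t < min t' (left (ini x k)) := lt_min hlt h4
    linarith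
  · have h' : (⨆ i, left (ini x i)) < t' := lt_of_le_of_lt h hlt
    obtain ⟨k, hk⟩ := exists_pow_lt_of_lt_one (sub_pos.2 h') (by norm_num : (1 / 2 : ℝ) < 1)
    have h3 := left_ini_bounds x k
    have h4 : left (ini x k) + (1 / 2) ^ k < t' := by linarith [h3.1]
    have h5 := h2 k
    rw [max_eq_left h4.le] at h5
    have h6 : max t (left (ini x k) + (1 / 2) ^ k) < t' := max_lt hlt h4
    linarith

theorem alg_det (y : Idx (alg R) → ℝ)
    (hy : ∀ s : Set (Idx (alg R)), s.Countable → ∃ z, ∀ a ∈ s, a.1 z = y a) :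
    ∃ s : Set (Idx (alg R)), s.Countable ∧ ∀ z w, (∀ a ∈ s, a.1 z = y a) → (∀ a ∈ s, a.1 w = y a) →
      z = w := by
  classical
  obtain ⟨z0, hz0⟩ := hy (s0 R) s0_countable
  by_cases hm : z0.1.lab ∈ R
  · refine ⟨insert (F7 ⟨_, hm⟩) (s0 R), s0_countable.insert _, fun z w hz hw => ?_⟩
    have hzw := eq_of_s0 (z := z) (w := w) fun a ha =>
      (hz a (mem_insert_of_mem _ ha)).trans (hw a (mem_insert_of_mem _ ha)).symm
    have hzz := eq_of_s0 (z := z) (w := z0) fun a ha =>
      (hz a (mem_insert_of_mem _ ha)).trans (hz0 a ha).symm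
    have h1 := (hz _ (mem_insert _ _)).trans (hw _ (mem_insert _ _)).symm
    have h2 : ((z.1, z.2.1) : Mi R × Qt R) ∈ {x : Mi R × Qt R | x.1.lab = z0.1.lab} := by
      show z.1.lab = z0.1.lab
      rw [hzz.1]
    have h3 : ((w.1, w.2.1) : Mi R × Qt R) ∈ {x : Mi R × Qt R | x.1.lab = z0.1.lab} := by
      show w.1.lab = z0.1.lab
      rw [← hzw.1, hzz.1]
    have h4 : bl _ (isClopen_eqM ⟨_, hm⟩) co z = bl _ (isClopen_eqM ⟨_, hm⟩) co w := h1
    rw [bl_mem _ _ h2, bl_mem _ _ h3] at h4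
    exact Prod.ext hzw.1 (Prod.ext hzw.2 (Subtype.ext h4))
  · refine ⟨s0 R, s0_countable, fun z w hz hw => ?_⟩
    have hall : ∀ a ∈ s0 R, a.1 z = a.1 w := fun a ha => (hz a ha).trans (hw a ha).symm
    have hzw := eq_of_s0 hall
    have hzz := eq_of_s0 (z := z) (w := z0) fun a ha => (hz a ha).trans (hz0 a ha).symm
    refine Prod.ext hzw.1 (Prod.ext hzw.2 (Subtype.ext ?_))
    by_cases hlq : z.1.lab = Qt.lab z.2.1
    · -- the infinite path
      obtain ⟨m, q, t⟩ := z
      obtain ⟨m', q', t'⟩ := w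
      obtain ⟨h1, h2⟩ := hzw
      simp only at h1 h2 hlq
      subst h1
      subst h2
      cases q with
      | node p r =>
        exfalso
        apply hm
        rw [← hzz.1]
        show m.lab ∈ R
        rw [hlq]
        exact r.2
      | br x s =>
        have h5 : ∀ k, min t.1 (left (ini x k)) = min t'.1 (left (ini x k)) := by
          intro k
          have h6 : bl _ (isClopen_path (R := R) (ini x k)) (coMin (ini x k)) (m, Qt.br x s, t) =
            bl _ (isClopen_path (ini x k)) (coMin (ini x k)) (m, Qt.br x s, t') :=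
            hall (F5 (ini x k)) (by simp [s0])
          rw [bl_mem _ _ (z := (m, Qt.br x s, t)) (Qt.inP_br (R := R) x s k),
            bl_mem _ _ (z := (m, Qt.br x s, t')) (Qt.inP_br (R := R) x s k)] at h6
          exact h6
        have h7 : ∀ k, max t.1 (left (ini x k) + (1 / 2) ^ k) =
            max t'.1 (left (ini x k) + (1 / 2) ^ k) := by
          intro k
          have h6 : bl _ (isClopen_path (R := R) (ini x k)) (coMax (ini x k)) (m, Qt.br x s, t) =
            bl _ (isClopen_path (ini x k)) (coMax (ini x k)) (m, Qt.br x s, t') :=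
            hall (F6 (ini x k)) (by simp [s0])
          rw [bl_mem _ _ (z := (m, Qt.br x s, t)) (Qt.inP_br (R := R) x s k),
            bl_mem _ _ (z := (m, Qt.br x s, t')) (Qt.inP_br (R := R) x s k)] at h6
          have h8 : max t.1 (left (ini x k) + (1 / 2) ^ (ini x k).length) =
            max t'.1 (left (ini x k) + (1 / 2) ^ (ini x k).length) := h6
          rwa [ini_length] at h8
        exact le_antisymm (not_lt.1 (eq_of_cuts (fun k => (h5 k).symm) fun k => (h7 k).symm))
          (not_lt.1 (eq_of_cuts h5 h7))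
    · obtain ⟨i, hi⟩ := Function.ne_iff.1 hlq
      have h2 : ((z.1, z.2.1) : Mi R × Qt R) ∈ {x : Mi R × Qt R | x.1.lab i ≠ Qt.lab x.2 i} := hi
      have h3 : ((w.1, w.2.1) : Mi R × Qt R) ∈ {x : Mi R × Qt R | x.1.lab i ≠ Qt.lab x.2 i} := by
        rw [← hzw.1, ← hzw.2]
        exact hi
      have h4 : bl _ (isClopen_off i) co z = bl _ (isClopen_off i) co w :=
        hall (F4 i) (by simp [s0])
      rw [bl_mem _ _ h2, bl_mem _ _ h3] at h4
      exact h4

theorem good (hR : ∀ e : (ℕ → Bool) → (ℕ → Bool), Continuous e → Function.Injective e →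
    ∃ y, e y ∉ R) : Good (alg R) := ⟨alg_comp, alg_loc hR, alg_reg, alg_det⟩

theorem not_starStar_XX (hR0 : ¬ R.Countable)
    (hR : ∀ e : (ℕ → Bool) → (ℕ → Bool), Continuous e → Function.Injective e →
    ∃ y, e y ∉ R) : ¬ Pool.Agent.V11218.LC.StarStar (XX R) :=
  not_starStar (good hR) (fC_notMem hR0) (M := 1) fun z => abs_le.2
    ⟨by have := z.2.2.2.1; show -1 ≤ z.2.2.1; linarith, z.2.2.2.2⟩

end Pool.Agent.J6H78.PS
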