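import Pool.Agent.J6H78.PS.Space

set_option autoImplicit false

/-! The key lemma. -/

namespace Pool.Agent.J6H78.PS

open Set Filter Topology Pool.Agent.W642.HG

variable {R : Set (ℕ → Bool)}

/-- One step of the construction. -/
theorem step (Bad : List (Bool × ℕ) → R → Prop) (hdesc : ∀ p r, Bad p r → ∃ a, Bad (a :: p) r)
    (p : List (Bool × ℕ)) (T : Set R) (hT : ¬ T.Countable)
    (hg : ∀ r ∈ T, Bad p r) (N : ℕ) :
    ∃ k ≥ N, ∃ u v : ℕ → Bool, (∃ i < k, u i ≠ v i) ∧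
      (∃ (a : Bool × ℕ) (T' : Set R), T' ⊆ T ∧ ¬ T'.Countable ∧ (∀ r ∈ T', ∀ i < k, r.1 i = u i) ∧
        ∀ r ∈ T', Bad (a :: p) r) ∧
      (∃ (a : Bool × ℕ) (T' : Set R), T' ⊆ T ∧ ¬ T'.Countable ∧ (∀ r ∈ T', ∀ i < k, r.1 i = v i) ∧
        ∀ r ∈ T', Bad (a :: p) r) := by
  classical
  obtain ⟨u, hu, v, hv, huv, hcond⟩ := exists_two T hT
  have huv' : u.1 ≠ v.1 := fun h => huv (Subtype.ext h)
  obtain ⟨i, hi⟩ := Function.ne_iff.1 huv'
  obtain ⟨K, hK1, hK2⟩ : ∃ K, N ≤ K ∧ i < K := ⟨max N (i + 1), le_max_left _ _, by simp⟩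
  have aux : ∀ w : R, ¬ {r ∈ T | ∀ i < K, r.1 i = w.1 i}.Countable →
      ∃ (a : Bool × ℕ) (T' : Set R), T' ⊆ T ∧ ¬ T'.Countable ∧
        (∀ r ∈ T', ∀ i < K, r.1 i = w.1 i) ∧ ∀ r ∈ T', Bad (a :: p) r := by
    intro w h5
    have h6 : ∃ a : Bool × ℕ, ¬ {r ∈ T | (∀ j < K, r.1 j = w.1 j) ∧ Bad (a :: p) r}.Countable := by
      by_contra hcon
      push Not at hcon
      refine h5 ((countable_iUnion hcon).mono fun r hr => ?_)
      obtain ⟨n, hn⟩ := hdesc p r (hg r hr.1)
      exact mem_iUnion.2 ⟨n, hr.1, hr.2, hn⟩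
    obtain ⟨a, ha⟩ := h6
    exact ⟨a, _, fun r hr => hr.1, ha, fun r hr => hr.2.1, fun r hr => hr.2.2⟩
  exact ⟨K, hK1, u.1, v.1, ⟨i, hK2, hi⟩, aux u (hcond K).1, aux v (hcond K).2⟩

/-- The states of the construction. -/
structure St (Bad : List (Bool × ℕ) → R → Prop) where
  p : List (Bool × ℕ)
  T : Set R
  unc : ¬ T.Countable
  bad : ∀ r ∈ T, Bad p r

theorem stepS (Bad : List (Bool × ℕ) → R → Prop) (hdesc : ∀ p r, Bad p r → ∃ a, Bad (a :: p) r)
    (s : St Bad) (N : ℕ) : ∃ s' : Bool → St Bad,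
    ∃ k ≥ N, ∃ u : Bool → ℕ → Bool, (∃ i < k, u false i ≠ u true i) ∧
      ∀ b, (∃ a, (s' b).p = a :: s.p) ∧ (s' b).T ⊆ s.T ∧ ∀ r ∈ (s' b).T, ∀ i < k, r.1 i = u b i := by
  obtain ⟨k, hk, u, v, h1, ⟨a, T, h2, h3, h4, h5⟩, a', T', h2', h3', h4', h5'⟩ :=
    step Bad hdesc s.p s.T s.unc s.bad N
  refine ⟨fun b => if b then ⟨a' :: s.p, T', h3', h5'⟩ else ⟨a :: s.p, T, h3, h5⟩, k, hk,
    fun b => if b then v else u, by simpa using h1, fun b => ?_⟩
  cases b
  · exact ⟨⟨a, rfl⟩, h2, h4⟩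
  · exact ⟨⟨a', rfl⟩, h2', h4'⟩

/-- The key lemma. -/
theorem key (hR : ∀ e : (ℕ → Bool) → (ℕ → Bool), Continuous e → Function.Injective e → ∃ y, e y ∉ R)
    (Bad : List (Bool × ℕ) → R → Prop) (hdesc : ∀ p r, Bad p r → ∃ a, Bad (a :: p) r)
    (h : ∀ x (r : ℕ → Bool), r ∉ R → ∃ j, ∀ k ≥ j,
      {r' : R | (∀ i < j, r'.1 i = r i) ∧ Bad (ini x k) r'}.Countable)
    (p0 : List (Bool × ℕ)) : {r : R | Bad p0 r}.Countable := by
  classical
  by_contra hcon
  let s0 : St Bad := ⟨p0, _, hcon, fun r hr => hr⟩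
  choose s' k hk u hu hs' using stepS Bad hdesc
  let S : (ℕ → Bool) → ℕ → St Bad := fun y n =>
    Nat.rec s0 (fun n s => s' s (n + 1) (y n)) n
  have hS : ∀ y n, S y (n + 1) = s' (S y n) (n + 1) (y n) := fun y n => rfl
  have hT1 : ∀ y n, (S y (n + 1)).T ⊆ (S y n).T := fun y n => by
    rw [hS]
    exact (hs' _ _ _).2.1
  have hTm : ∀ y {m n}, m ≤ n → (S y n).T ⊆ (S y m).T := fun y m n hmn =>
    antitone_nat_of_succ_le (f := fun n => (S y n).T) (hT1 y) hmn
  have hne : ∀ y n, (S y n).T.Nonempty := fun y n => by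
    by_contra h
    rw [not_nonempty_iff_eq_empty] at h
    exact (S y n).unc (h ▸ countable_empty)
  choose w hw using hne
  -- the limit label
  let e : (ℕ → Bool) → (ℕ → Bool) := fun y i => (w y (i + 1)).1 i
  have hagree : ∀ y n (r r' : R), r ∈ (S y (n + 1)).T → r' ∈ (S y (n + 1)).T →
      ∀ i < n + 1, r.1 i = r'.1 i := by
    intro y n r r' hr hr' i hi
    rw [hS] at hr hr'
    have h1 := (hs' _ _ _).2.2 r hr i (lt_of_lt_of_le hi (hk _ _))
    have h2 := (hs' _ _ _).2.2 r' hr' i (lt_of_lt_of_le hi (hk _ _))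
    rw [h1, h2]
  have he : ∀ y n, ∀ r ∈ (S y n).T, ∀ i < n, r.1 i = e y i := by
    intro y n r hr i hi
    exact hagree y i r _ (hTm y (Nat.succ_le_of_lt hi) hr) (hw y (i + 1)) i (Nat.lt_succ_self i)
  have hcong : ∀ y y' n, (∀ i < n, y i = y' i) → S y n = S y' n := by
    intro y y' n
    induction n with
    | zero => intro _; rfl
    | succ n ih =>
      intro hy
      rw [hS, hS, ih fun i hi => hy i (by omega), hy n (Nat.lt_succ_self n)]
  have hw' : ∀ y y' n, (∀ i < n, y i = y' i) → ∀ r ∈ (S y n).T, ∀ i < n, r.1 i = e y' i := by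
    intro y y' n hy r hr i hi
    exact he y' n r (by rw [← hcong y y' n hy]; exact hr) i hi
  have hecont : Continuous e := by
    refine continuous_pi fun i => ?_
    rw [continuous_discrete_rng]
    intro b
    rw [isOpen_pi_iff]
    intro y hy
    refine ⟨Finset.range (i + 1), fun j => {y j}, fun j _ => ⟨isOpen_discrete _, rfl⟩, ?_⟩
    intro y' hy'
    have h1 : ∀ j < i + 1, y' j = y j := fun j hj => hy' j (by simpa using hj)
    have h2 := hw' y y' (i + 1) (fun j hj => (h1 j hj).symm) (w y (i + 1)) (hw y (i + 1)) i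
      (Nat.lt_succ_self i)
    have h3 : e y' i = e y i := h2.symm
    show e y' i ∈ ({b} : Set Bool)
    rw [h3]
    exact hy
  have heinj : Function.Injective e := by
    intro y y' hyy
    by_contra hne
    have hex : ∃ n, y n ≠ y' n := Function.ne_iff.1 hne
    let n := Nat.find hex
    have hn : y n ≠ y' n := Nat.find_spec hex
    have hlt : ∀ i < n, y i = y' i := fun i hi => by
      by_contra h
      exact Nat.find_min hex hi h
    have hSn := hcong y y' n hlt
    obtain ⟨i, hi, hui⟩ := hu (S y n) (n + 1)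
    have h1 : e y i = u (S y n) (n + 1) (y n) i := by
      have h2 := hw y (max (n + 1) (i + 1))
      have h3 := he y _ _ h2 i (by omega)
      rw [← h3]
      have h4 := hTm y (le_max_left (n + 1) (i + 1)) h2
      rw [hS] at h4
      exact (hs' _ _ _).2.2 _ h4 i hi
    have h1' : e y' i = u (S y n) (n + 1) (y' n) i := by
      have h2 := hw y' (max (n + 1) (i + 1))
      have h3 := he y' _ _ h2 i (by omega)
      rw [← h3]
      have h4 := hTm y' (le_max_left (n + 1) (i + 1)) h2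
      rw [hS, ← hSn] at h4
      exact (hs' _ _ _).2.2 _ h4 i hi
    rw [hyy, h1'] at h1
    apply hui
    cases h5 : y n <;> cases h6 : y' n
    · exact absurd (h5.trans h6.symm) hn
    · rw [h5, h6] at h1
      exact h1.symm
    · rw [h5, h6] at h1
      exact h1
    · exact absurd (h5.trans h6.symm) hn
  obtain ⟨y, hy⟩ := hR e hecont heinj
  -- the path
  have hex : ∀ n, ∃ a, (S y (n + 1)).p = a :: (S y n).p := fun n => by
    rw [hS]
    exact (hs' _ _ _).1
  choose a ha using hex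
  obtain ⟨x0, hx0⟩ := exists_ini p0
  let x : ℕ → Bool × ℕ := fun j => if j < p0.length then x0 j else a (j - p0.length)
  have hx : ∀ n, ini x (p0.length + n) = (S y n).p := by
    intro n
    induction n with
    | zero =>
      show ini x p0.length = p0
      refine Eq.trans (ini_congr fun i hi => ?_) hx0
      simp [x, hi]
    | succ n ih =>
      rw [ha n, ← ih]
      show x (p0.length + n) :: _ = _
      congr 1
      simp [x]
  obtain ⟨j, hj⟩ := h x (e y) hy
  refine (S y j).unc ((hj (p0.length + j) (by omega)).mono ?_)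
  intro r hr
  refine ⟨fun i hi => he y j r hr i hi, ?_⟩
  rw [hx j]
  exact (S y j).bad r hr

end Pool.Agent.J6H78.PS
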