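import Pool.Agent.W642.HG.Fun

set_option autoImplicit false

/-! The two factors. -/

namespace Pool.Agent.J6H78.PS

open Set Filter Topology Pool.Agent.W642.HG

/-! ### The Lindelöf factor -/

/-- The set of labels with the points of `R` isolated. -/
def Mi (_R : Set (ℕ → Bool)) : Type := ℕ → Bool

variable {R : Set (ℕ → Bool)}

/-- the underlying label -/
def Mi.lab (m : Mi R) : ℕ → Bool := m

open Classical in
/-- the map that defines the topology -/
noncomputable def Mi.Φ (m : Mi R) : (ℕ → Bool) × (R → Bool) := (m.lab, fun e => decide (m.lab = e.1))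

noncomputable instance : TopologicalSpace (Mi R) := TopologicalSpace.induced Mi.Φ inferInstance

theorem Mi.continuous_Φ : Continuous (Mi.Φ : Mi R → _) := continuous_induced_dom

theorem Mi.injective_Φ : Function.Injective (Mi.Φ : Mi R → _) := fun _ _ h =>
  congrArg Prod.fst h

theorem Mi.isEmbedding_Φ : IsEmbedding (Mi.Φ : Mi R → _) := ⟨⟨rfl⟩, Mi.injective_Φ⟩

instance : T35Space (Mi R) := Mi.isEmbedding_Φ.t35Space

theorem Mi.continuous_lab : Continuous (Mi.lab : Mi R → _) := continuous_fst.comp Mi.continuous_Φ

theorem Mi.isClopen_pt (e : R) : IsClopen {m : Mi R | m.lab = e.1} := by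
  have h : Continuous fun m : Mi R => (Mi.Φ m).2 e :=
    (continuous_apply e).comp (continuous_snd.comp Mi.continuous_Φ)
  have h2 : {m : Mi R | m.lab = e.1} = (fun m : Mi R => (Mi.Φ m).2 e) ⁻¹' {true} := by
    ext m
    simp [Mi.Φ]
  rw [h2]
  exact (isClopen_discrete _).preimage h

/-- The neighbourhoods of the labels outside of `R`. -/
theorem Mi.nhds_notMem (m : Mi R) (hm : m.lab ∉ R) {U : Set (Mi R)} (hU : U ∈ 𝓝 m) :
    ∃ j, ∀ z : Mi R, (∀ i < j, z.lab i = m.lab i) → z ∈ U := by
  classical
  let W : ℕ → Set (Mi R) := fun j => {z | ∀ i < j, z.lab i = m.lab i}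
  have hW : Antitone W := fun j k hjk z hz i hi => hz i (by omega)
  have hb : (⨅ j, 𝓟 (W j)).HasBasis (fun _ => True) W := by
    apply Filter.hasBasis_iInf_principal
    exact directed_of_isDirected_le fun i j h => hW h
  have hle : (⨅ j, 𝓟 (W j)) ≤ 𝓝 m := by
    rw [nhds_induced, ← tendsto_iff_comap]
    refine Tendsto.prodMk_nhds ?_ ?_
    · rw [tendsto_pi_nhds]
      intro i
      refine tendsto_const_nhds.congr' ?_
      refine hb.eventually_iff.2 ⟨i + 1, trivial, fun z hz => ?_⟩
      exact (hz i (Nat.lt_succ_self i)).symm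
    · rw [tendsto_pi_nhds]
      intro e
      refine tendsto_const_nhds.congr' ?_
      have hne : m.lab ≠ e.1 := fun h => hm (h ▸ e.2)
      obtain ⟨i, hi⟩ := Function.ne_iff.1 hne
      refine hb.eventually_iff.2 ⟨i + 1, trivial, fun z hz => ?_⟩
      have h1 : z.lab ≠ e.1 := by
        intro h
        apply hi
        rw [← h]
        exact (hz i (Nat.lt_succ_self i)).symm
      show decide (m.lab = e.1) = decide (z.lab = e.1)
      rw [decide_eq_false hne, decide_eq_false h1]
  obtain ⟨j, -, hj⟩ := hb.mem_iff.1 (hle hU)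
  exact ⟨j, fun z h1 => hj h1⟩

/-- A closed set of labels contained in `R` is countable. -/
theorem countable_of_closed
    (hR : ∀ e : (ℕ → Bool) → (ℕ → Bool), Continuous e → Function.Injective e → ∃ y, e y ∉ R)
    {C : Set (ℕ → Bool)} (hC : IsClosed C) (hCR : C ⊆ R) : C.Countable := by
  by_contra hcon
  haveI : PolishSpace (ℕ → Bool) := PolishSpace.mk
  obtain ⟨e, he1, he2, he3⟩ := hC.exists_nat_bool_injection_of_not_countable hcon
  obtain ⟨y, hy⟩ := hR e he2 he3
  exact hy (hCR (he1 ⟨y, rfl⟩))

theorem Mi.lindelof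
    (hR : ∀ e : (ℕ → Bool) → (ℕ → Bool), Continuous e → Function.Injective e → ∃ y, e y ∉ R) :
    LindelofSpace (Mi R) := by
  classical
  refine ⟨isLindelof_of_countable_subcover ?_⟩
  intro ι U hUo hcov
  have hex : ∀ m : Mi R, ∃ i, m ∈ U i := fun m => mem_iUnion.1 (hcov (mem_univ m))
  choose i hi using hex
  haveI : Nonempty ι := ⟨i (show Mi R from fun _ => false)⟩
  -- the good finite strings
  let G : Set (List Bool) := {s | ∃ k, ∀ z : Mi R, (∀ (n : ℕ) (h : n < s.length), z.lab n = s[n]) → z ∈ U k}
  choose! k hk using (fun (s : List Bool) (hs : s ∈ G) => hs)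
  let V : Set (ℕ → Bool) := ⋃ s ∈ G, {z | ∀ (n : ℕ) (h : n < s.length), z n = s[n]}
  have hV : IsOpen V := by
    refine isOpen_biUnion fun s _ => ?_
    have : {z : ℕ → Bool | ∀ (n : ℕ) (h : n < s.length), z n = s[n]} =
        ⋂ n : Fin s.length, {z | z n.1 = s[n.1]} := by
      ext z
      simp only [mem_ofPred_eq, mem_iInter]
      exact ⟨fun h n => h n.1 n.2, fun h n hn => h ⟨n, hn⟩⟩
    rw [this]
    exact isOpen_iInter_of_finite fun n => by
      have h2 : Continuous fun z : ℕ → Bool => z n.1 := continuous_apply n.1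
      exact (isOpen_discrete {s[n.1]}).preimage h2
  have hVR : Vᶜ ⊆ R := by
    intro r hr
    by_contra hrR
    apply hr
    obtain ⟨j, hj⟩ := Mi.nhds_notMem (R := R) r hrR ((hUo (i r)).mem_nhds (hi r))
    refine mem_biUnion (x := List.ofFn fun n : Fin j => r n.1) ⟨i r, fun z hz => hj z fun n hn => ?_⟩
      fun n hn => ?_
    · have h2 := hz n (by simpa using hn)
      rw [h2, List.getElem_ofFn]
      rfl
    · rw [List.getElem_ofFn]
  have hc : (Vᶜ).Countable := countable_of_closed hR hV.isClosed_compl hVR
  refine ⟨(k '' G) ∪ ((fun m : ℕ → Bool => i m) '' Vᶜ), ((to_countable G).image _).union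
    (hc.image _), fun m _ => ?_⟩
  by_cases hm : m.lab ∈ V
  · obtain ⟨s, hs, hms⟩ := mem_iUnion₂.1 hm
    exact mem_biUnion (Or.inl ⟨s, hs, rfl⟩) (hk s hs m hms)
  · exact mem_biUnion (Or.inr ⟨m.lab, hm, rfl⟩) (hi m)

/-! ### The separable metrizable factor -/

/-- Finite paths with a label in `R`, infinite paths with any label. -/
inductive Qt (R : Set (ℕ → Bool)) : Type
  | node (p : List (Bool × ℕ)) (r : R) : Qt R
  | br (x : ℕ → Bool × ℕ) (r : ℕ → Bool) : Qt R

namespace Qt

/-- the label -/
def lab : Qt R → (ℕ → Bool)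
  | node _ r => r
  | br _ r => r

/-- the path of the point begins with the given finite path -/
def inP (u : List (Bool × ℕ)) : Qt R → Prop
  | node p _ => u <:+ p
  | br x _ => u = ini x u.length

open Classical in
/-- the map that defines the topology -/
noncomputable def Ψ (z : Qt R) : (List (Bool × ℕ) → Bool) × (ℕ → Bool) :=
  (fun u => decide (inP u z), lab z)

noncomputable instance : TopologicalSpace (Qt R) := TopologicalSpace.induced Ψ inferInstance

theorem continuous_Ψ : Continuous (Ψ : Qt R → _) := continuous_induced_dom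

theorem inP_iff_of_Ψ {z w : Qt R} (h : ∀ u, inP u z ↔ inP u w) (hl : lab z = lab w) : z = w := by
  cases z with
  | node p r =>
    cases w with
    | node q s =>
      obtain rfl : r = s := Subtype.ext hl
      have a : p <:+ q := (h p).1 (List.suffix_refl p)
      have b : q <:+ p := (h q).2 (List.suffix_refl q)
      rw [a.eq_of_length_le b.length_le]
    | br x s =>
      exfalso
      have h1 : ini x (p.length + 1) <:+ p := (h _).2 (by
        show ini x (p.length + 1) = ini x (ini x (p.length + 1)).length
        rw [ini_length])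
      have := h1.length_le
      rw [ini_length] at this
      omega
  | br x r =>
    cases w with
    | node q s =>
      exfalso
      have h1 : ini x (q.length + 1) <:+ q := (h _).1 (by
        show ini x (q.length + 1) = ini x (ini x (q.length + 1)).length
        rw [ini_length])
      have := h1.length_le
      rw [ini_length] at this
      omega
    | br y s =>
      have h4 : r = s := hl
      have h5 : ∀ n, ini x n = ini y n := by
        intro n
        have h6 : inP (ini x n) (br x r : Qt R) := by
          show ini x n = ini x (ini x n).length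
          rw [ini_length]
        have h7 : ini x n = ini y (ini x n).length := (h _).1 h6
        rw [ini_length] at h7
        exact h7
      have h6 : x = y := by
        funext n
        have h7 := h5 (n + 1)
        simp only [ini, List.cons.injEq] at h7
        exact h7.1
      rw [h4, h6]

theorem injective_Ψ : Function.Injective (Ψ : Qt R → _) := by
  intro z w h
  refine inP_iff_of_Ψ (fun u => ?_) (congrArg Prod.snd h)
  exact decide_eq_decide.1 (congrFun (congrArg Prod.fst h) u)

theorem isEmbedding_Ψ : IsEmbedding (Ψ : Qt R → _) := ⟨⟨rfl⟩, injective_Ψ⟩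

instance : T35Space (Qt R) := isEmbedding_Ψ.t35Space

instance : SecondCountableTopology (Qt R) :=
  (isEmbedding_Ψ (R := R)).isInducing.secondCountableTopology

theorem continuous_lab : Continuous (lab : Qt R → _) := continuous_snd.comp continuous_Ψ

theorem isClopen_inP (u : List (Bool × ℕ)) : IsClopen {z : Qt R | inP u z} := by
  have h : Continuous fun z : Qt R => (Ψ z).1 u :=
    (continuous_apply u).comp (continuous_fst.comp continuous_Ψ)
  have h2 : {z : Qt R | inP u z} = (fun z : Qt R => (Ψ z).1 u) ⁻¹' {true} := by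
    ext z
    simp [Ψ]
  rw [h2]
  exact (isClopen_discrete _).preimage h

/-- nested paths -/
theorem inP_of_suffix {u v : List (Bool × ℕ)} (h : u <:+ v) {z : Qt R} (hz : inP v z) :
    inP u z := by
  cases z with
  | node p r => exact h.trans hz
  | br x r =>
    have h1 : v = ini x v.length := hz
    have h2 : ini x u.length <:+ v := by
      rw [h1]
      exact ini_suffix x (by simpa using h.length_le)
    show u = ini x u.length
    exact (List.suffix_of_suffix_length_le h h2 (by simp)).eq_of_length (by simp)

/-- uniqueness of the initial path of given length -/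
theorem inP_unique {u v : List (Bool × ℕ)} (h : u.length = v.length) {z : Qt R}
    (hu : inP u z) (hv : inP v z) : u = v := by
  cases z with
  | node p r => exact (List.suffix_of_suffix_length_le hu hv h.le).eq_of_length h
  | br x r =>
    have h1 : u = ini x u.length := hu
    have h2 : v = ini x v.length := hv
    rw [h1, h2, h]

theorem inP_br (x : ℕ → Bool × ℕ) (r : ℕ → Bool) (j : ℕ) : inP (ini x j) (br x r : Qt R) := by
  show ini x j = ini x (ini x j).length
  rw [ini_length]

/-- Convergence of the children. -/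
theorem tendsto_child (p : List (Bool × ℕ)) (r : R) (i : Bool) :
    Tendsto (fun n => (node ((i, n) :: p) r : Qt R)) atTop (𝓝 (node p r)) := by
  rw [nhds_induced, tendsto_comap_iff]
  refine Tendsto.prodMk_nhds ?_ ?_
  · rw [tendsto_pi_nhds]
    intro u
    refine tendsto_const_nhds.congr' ?_
    have h1 : ∀ᶠ n : ℕ in atTop, u ≠ (i, n) :: p := by
      rcases u with _ | ⟨a, q⟩
      · exact Eventually.of_forall fun n => by simp
      · filter_upwards [eventually_gt_atTop a.2] with n hn hcon
        have := (List.cons.inj hcon).1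
        rw [this] at hn
        exact lt_irrefl _ hn
    filter_upwards [h1] with n hn
    simp only [inP]
    congr 1
    rw [List.suffix_cons_iff, eq_iff_iff]
    exact ⟨fun h => Or.inr h, fun h => h.resolve_left hn⟩
  · exact tendsto_const_nhds

/-- The neighbourhoods of the infinite paths. -/
theorem nhds_br (x : ℕ → Bool × ℕ) (r : ℕ → Bool) {U : Set (Qt R)}
    (hU : U ∈ 𝓝 (br x r)) : ∃ j, ∀ z : Qt R, inP (ini x j) z → (∀ i < j, lab z i = r i) →
      z ∈ U := by
  classical
  let W : ℕ → Set (Qt R) := fun j => {z | inP (ini x j) z ∧ ∀ i < j, lab z i = r i}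
  have hW : Antitone W := by
    intro j k hjk z hz
    exact ⟨inP_of_suffix (ini_suffix x hjk) hz.1, fun i hi => hz.2 i (by omega)⟩
  have hb : (⨅ j, 𝓟 (W j)).HasBasis (fun _ => True) W := by
    apply Filter.hasBasis_iInf_principal
    exact directed_of_isDirected_le fun i j h => hW h
  have hle : (⨅ j, 𝓟 (W j)) ≤ 𝓝 (br x r) := by
    rw [nhds_induced, ← tendsto_iff_comap]
    refine Tendsto.prodMk_nhds ?_ ?_
    · rw [tendsto_pi_nhds]
      intro u
      refine tendsto_const_nhds.congr' ?_
      refine hb.eventually_iff.2 ⟨u.length, trivial, fun z hz => ?_⟩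
      have h1 : inP u z ↔ inP u (br x r : Qt R) := by
        constructor
        · intro h
          exact inP_unique (by simp) h hz.1
        · intro h
          have h3 : u = ini x u.length := h
          rw [h3]
          exact hz.1
      simp only [h1]
    · rw [tendsto_pi_nhds]
      intro i
      refine tendsto_const_nhds.congr' ?_
      refine hb.eventually_iff.2 ⟨i + 1, trivial, fun z hz => ?_⟩
      exact (hz.2 i (Nat.lt_succ_self i)).symm
  obtain ⟨j, -, hj⟩ := hb.mem_iff.1 (hle hU)
  exact ⟨j, fun z h1 h2 => hj ⟨h1, h2⟩⟩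

end Qt

/-- clopen neighbourhoods -/
theorem exists_clopen_of_embedding {Z P : Type} [TopologicalSpace Z] [TopologicalSpace P]
    [CompactSpace P] [T2Space P] [TotallyDisconnectedSpace P] {φ : Z → P} (hφ : IsInducing φ)
    (z : Z) {U : Set Z} (hU : U ∈ 𝓝 z) : ∃ V, IsClopen V ∧ z ∈ V ∧ V ⊆ U := by
  rw [hφ.nhds_eq_comap] at hU
  obtain ⟨W, hW, hWU⟩ := hU
  obtain ⟨W', hW'1, hW'2, hW'3⟩ := mem_nhds_iff.1 hW
  obtain ⟨V, hV, hzV, hVW⟩ := compact_exists_isClopen_in_isOpen hW'2 hW'3
  exact ⟨φ ⁻¹' V, hV.preimage hφ.continuous, hzV, fun w hw => hWU (hW'1 (hVW hw))⟩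

end Pool.Agent.J6H78.PS
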